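import Pool.Agent.Y946.CM.Fin2
import Pool.Agent.Y748.CM.ZA2

/-!
# MP_768c9c_nt: the Kahane-Saias question contradicts the Riemann Hypothesis

If every CMO function has partial sums `Ω(x^(-1/2))`, then `ζ` has infinitely many zeros with real
part `> 1/2 + κ`, where `κ > 0` is an absolute constant. In the other case we construct a CMO
function whose partial sums are `O(x^(-1/2-c))` for some `c > 0`.
-/

set_option autoImplicit false

namespace Pool.Agent.Results.MP_768c9c_nt.ExceptionalZeros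

open Filter Topology Finset Asymptotics

/-- `f` (only its values at `n ≥ 1` matter) is a CMO function: completely multiplicative, with
`∑ f(n)` convergent to `0` -/
structure IsCMO (f : ℕ → ℂ) : Prop where
  one : f 1 = 1
  mul : ∀ m n : ℕ, 1 ≤ m → 1 ≤ n → f (m * n) = f m * f n
  sum_zero : Tendsto (fun N : ℕ => ∑ n ∈ Icc 1 N, f n) atTop (𝓝 0)

/-- the partial sum `S_f(x) = ∑_{n ≤ x} f(n)` -/
noncomputable def partialSum (f : ℕ → ℂ) (x : ℝ) : ℂ := ∑ n ∈ Icc 1 ⌊x⌋₊, f n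

lemma transfer (h : Pool.Agent.Y946.CM.Concl) : ∃ f : ℕ → ℂ, IsCMO f ∧
    (∃ c C : ℝ, 0 < c ∧ ∀ x : ℝ, 1 ≤ x → ‖partialSum f x‖ ≤ C * x ^ (-(1 / 2 : ℝ) - c)) ∧
    (partialSum f) =o[atTop] (fun x : ℝ => x ^ (-(1 / 2 : ℝ))) := by
  obtain ⟨f, h1, h2, c, C, hc, hC, hb⟩ := h
  have hb' : ∀ x : ℝ, 1 ≤ x →
      ‖partialSum f x‖ ≤ (C * 2 ^ (1 / 2 + c)) * x ^ (-(1 / 2 : ℝ) - c) := by
    intro x hx
    have hN : 1 ≤ ⌊x⌋₊ := (Nat.one_le_floor_iff x).2 hx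
    have hx0 : 0 < x := by linarith
    have hNr : (1 : ℝ) ≤ (⌊x⌋₊ : ℝ) := by exact_mod_cast hN
    have hlt : x < ⌊x⌋₊ + 1 := Nat.lt_floor_add_one x
    have h3 : x / 2 ≤ (⌊x⌋₊ : ℝ) := by linarith
    refine (hb _ hN).trans ?_
    have h4 : ((⌊x⌋₊ : ℕ) : ℝ) ^ (-(1 / 2 : ℝ) - c) ≤ (x / 2) ^ (-(1 / 2 : ℝ) - c) :=
      Real.rpow_le_rpow_of_nonpos (by positivity) h3 (by linarith)
    have h5 : (x / 2) ^ (-(1 / 2 : ℝ) - c) = 2 ^ (1 / 2 + c) * x ^ (-(1 / 2 : ℝ) - c) := by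
      rw [Real.div_rpow hx0.le (by norm_num), div_eq_mul_inv, ← Real.rpow_neg (by norm_num),
        mul_comm]
      congr 2
      ring
    calc C * ((⌊x⌋₊ : ℕ) : ℝ) ^ (-(1 / 2 : ℝ) - c) ≤ C * (x / 2) ^ (-(1 / 2 : ℝ) - c) :=
          mul_le_mul_of_nonneg_left h4 hC.le
      _ = _ := by rw [h5]; ring
  have hsum : Tendsto (fun N : ℕ => ∑ n ∈ Icc 1 N, f n) atTop (𝓝 0) := by
    rw [tendsto_zero_iff_norm_tendsto_zero]
    have h3 : Tendsto (fun x : ℝ => x ^ (-(1 / 2 + c))) atTop (𝓝 0) :=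
      tendsto_rpow_neg_atTop (by positivity)
    have h4 := (h3.comp tendsto_natCast_atTop_atTop).const_mul C
    rw [mul_zero] at h4
    refine squeeze_zero' (Eventually.of_forall fun N => norm_nonneg _) ?_ h4
    filter_upwards [eventually_ge_atTop 1] with N hN
    refine (hb N hN).trans (le_of_eq ?_)
    simp only [Function.comp]
    congr 2
    ring
  refine ⟨f, ⟨h1, h2, hsum⟩, ⟨c, _, hc, hb'⟩, ?_⟩
  have e1 : (partialSum f) =O[atTop] (fun x : ℝ => x ^ (-(1 / 2 : ℝ) - c)) := by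
    refine IsBigO.of_bound (C * 2 ^ (1 / 2 + c)) ?_
    filter_upwards [eventually_ge_atTop (1 : ℝ)] with x hx
    rw [Real.norm_of_nonneg (by positivity)]
    exact hb' x hx
  refine e1.trans_isLittleO ?_
  rw [isLittleO_iff_tendsto']
  · have h5 : Tendsto (fun x : ℝ => x ^ (-c)) atTop (𝓝 0) := tendsto_rpow_neg_atTop hc
    refine h5.congr' ?_
    filter_upwards [eventually_gt_atTop (0 : ℝ)] with x hx
    rw [← Real.rpow_sub hx]
    congr 1
    ring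
  · filter_upwards [eventually_gt_atTop (0 : ℝ)] with x hx h0
    exact absurd h0 (Real.rpow_pos_of_pos hx _).ne'

/-- There is an absolute constant `κ > 0` such that the zeta function has infinitely many zeros
with real part `> 1/2 + κ`, or there is a CMO function `f` with `S_f(x) = O(x^(-1/2-c))` for some
`c > 0`, in particular with `S_f(x) = o(x^(-1/2))`. -/
theorem result : ∃ κ : ℝ, 0 < κ ∧
    ({ρ : ℂ | riemannZeta ρ = 0 ∧ 1 / 2 + κ < ρ.re}.Infinite ∨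
      ∃ f : ℕ → ℂ, IsCMO f ∧
        (∃ c C : ℝ, 0 < c ∧ ∀ x : ℝ, 1 ≤ x → ‖partialSum f x‖ ≤ C * x ^ (-(1 / 2 : ℝ) - c)) ∧
        (partialSum f) =o[atTop] (fun x : ℝ => x ^ (-(1 / 2 : ℝ)))) := by
  obtain ⟨κ, hκ, h⟩ := Pool.Agent.Y946.CM.exists_kappa Pool.Agent.Y748.CM.za2
  refine ⟨κ, hκ, ?_⟩
  by_cases hF : {ρ : ℂ | riemannZeta ρ = 0 ∧ 1 / 2 + κ < ρ.re}.Finite
  · exact Or.inr (transfer (h hF))
  · exact Or.inl hF

end Pool.Agent.Results.MP_768c9c_nt.ExceptionalZeros
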